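import Pool.Agent.D0H37.SO.Gen

set_option autoImplicit false

/-!
# A power saving for the Euler part of an odd perfect number

Let `N = q ^ k n ^ 2` be an odd perfect number in Eulerian form. Since `σ(q ^ k)` divides `2 n ^ 2`, one
has `q ^ k < 2 n ^ 2`. Here we improve the exponent `2` for every `k`:
`q ^ k ≤ C n ^ (2 - 1 / (k + 2))` with a constant `C` which depends only on `k`.

Idea of the proof. Let `D = σ(n ^ 2) / q ^ k`, so `D σ(q ^ k) = 2 n ^ 2`. For a prime `p ∣ n` write
`σ(p ^ e) = q ^ κ c` with `q ∤ c` and `p ^ e` exactly dividing `n ^ 2`; then the sum of the `κ` is `k` and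
the product of the `c` is `D`. Let `p ^ b` exactly divide `σ(q ^ k)`. Modulo `p ^ b` we have
`q ^ (k + 1) ≡ 1` and `q ^ κ c (1 - p) ≡ 1`, so `(c (1 - p)) ^ (k + 1) ≡ 1`, and `c ^ (k + 1)` is
congruent to the sum of the first `b` terms of the power series of `(1 - p) ^ (- k - 1)`. For large `p`
this sum is the remainder and it is at least `p ^ (b - 1)`. So `p ^ b ≤ C c ^ (2 k + 2)` if `b ≥ 2`; if
`b ≤ 1`, then `p ^ e` divides the square of the `p`-part of `D`. The product over all `p` gives
`q ^ k ≤ C D ^ (2 k + 3)`.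
-/

namespace Pool.Agent.Results.MP_4eb2ef_nt.PowerSaving

/-- For every `k ≥ 1` there is a constant `C` such that every odd perfect number `q ^ k n ^ 2` with a prime
`q` which does not divide `n` satisfies `q ^ (k (k + 2)) ≤ C n ^ (2 k + 3)`. -/
theorem result (k : ℕ) (hk : 1 ≤ k) : ∃ C : ℕ, ∀ q n : ℕ, q.Prime → q.Coprime n →
    Odd (q ^ k * n ^ 2) → (q ^ k * n ^ 2).Perfect →
    q ^ (k * (k + 2)) ≤ C * n ^ (2 * k + 3) :=
  Pool.Agent.D0H37.SO.boundG k hk

end Pool.Agent.Results.MP_4eb2ef_nt.PowerSaving
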